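import Pool.Agent.helper31.HP.A1

/-!
Module A2 of the project MP_5ae64c_pr : transition probabilities.
-/

open scoped BigOperators Topology
open Filter MeasureTheory

namespace Pool.Agent.helper20.HP

variable {V : Type} [Fintype V] [DecidableEq V] (K : HW V)

theorem pt_zero (x y : V) : K.pt 0 x y = if x = y then 1 else 0 := rfl

theorem pt_succ (t : ℕ) (x y : V) : K.pt (t + 1) x y = ∑ z, K.p x z * K.pt t z y := rfl

theorem pt_nonneg (t : ℕ) (x y : V) : 0 ≤ K.pt t x y := by
  induction t generalizing x with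
  | zero =>
    rw [pt_zero]
    split_ifs
    · exact zero_le_one
    · exact le_refl 0
  | succ t ih =>
    rw [pt_succ]
    exact Finset.sum_nonneg (fun z _ => mul_nonneg (K.nonneg x z) (ih z))

theorem pt_sum (t : ℕ) (x : V) : ∑ y, K.pt t x y = 1 := by
  induction t generalizing x with
  | zero =>
    simp only [pt_zero]
    rw [Finset.sum_ite_eq]
    simp
  | succ t ih =>
    simp only [pt_succ]
    rw [Finset.sum_comm]
    have : ∀ z ∈ (Finset.univ : Finset V), ∑ y, K.p x z * K.pt t z y = K.p x z := by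
      intro z _
      rw [← Finset.mul_sum, ih, mul_one]
    rw [Finset.sum_congr rfl this]
    exact K.sum_one x

theorem pt_add (s t : ℕ) (x y : V) : K.pt (s + t) x y = ∑ z, K.pt s x z * K.pt t z y := by
  induction s generalizing x with
  | zero =>
    simp only [pt_zero, zero_add, ite_mul, one_mul, zero_mul]
    rw [Finset.sum_ite_eq]
    simp
  | succ s ih =>
    rw [show s + 1 + t = (s + t) + 1 by omega, pt_succ]
    simp only [ih, pt_succ, Finset.sum_mul, Finset.mul_sum]
    rw [Finset.sum_comm]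
    refine Finset.sum_congr rfl (fun z _ => Finset.sum_congr rfl (fun w _ => ?_))
    ring

theorem A2_pt_one (x y : V) : K.pt 1 x y = K.p x y := by
  rw [pt_succ]
  simp only [pt_zero, mul_ite, mul_one, mul_zero]
  rw [Finset.sum_ite_eq']
  simp

theorem pt_symm (t : ℕ) (x y : V) : K.pt t x y = K.pt t y x := by
  induction t generalizing x y with
  | zero =>
    simp only [pt_zero]
    by_cases h : x = y
    · subst h; rfl
    · rw [if_neg h, if_neg (fun h' => h h'.symm)]
  | succ t ih =>
    rw [pt_succ, pt_add K t 1 y x]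
    refine Finset.sum_congr rfl (fun z _ => ?_)
    rw [A2_pt_one, ih y z, K.symm z x]
    ring

theorem pt_hom (σ : Equiv.Perm V) (hσ : ∀ u v, K.p (σ u) (σ v) = K.p u v) (t : ℕ) (x y : V) :
    K.pt t (σ x) (σ y) = K.pt t x y := by
  induction t generalizing x with
  | zero =>
    simp only [pt_zero, EmbeddingLike.apply_eq_iff_eq]
  | succ t ih =>
    rw [pt_succ, pt_succ, ← Equiv.sum_comp σ]
    refine Finset.sum_congr rfl (fun z _ => ?_)
    rw [hσ, ih]

theorem cc_eq (t : ℕ) (x : V) : K.pt t x x = cc K t := by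
  unfold cc
  have h : ∀ y ∈ (Finset.univ : Finset V), K.pt t y y = K.pt t x x := by
    intro y _
    obtain ⟨σ, hσ, hx⟩ := K.homog x y
    rw [← hx, pt_hom K σ hσ]
  rw [Finset.sum_congr rfl h, Finset.sum_const, Finset.card_univ, nsmul_eq_mul]
  have : (Fintype.card V : ℝ) ≠ 0 := by
    have : 0 < Fintype.card V := Fintype.card_pos_iff.mpr ⟨x⟩
    positivity
  field_simp

theorem pt_le_cc (t : ℕ) (x y : V) : K.pt t x y ≤ cc K t := by
  rw [← cc_eq K t x]
  exact K.offd t x y

theorem cc_nonneg (t : ℕ) : 0 ≤ cc K t := by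
  unfold cc
  exact div_nonneg (Finset.sum_nonneg (fun x _ => pt_nonneg K t x x)) (Nat.cast_nonneg _)

theorem cc_anti {s t : ℕ} (h : s ≤ t) : cc K t ≤ cc K s := by
  have : Antitone (cc K) := by
    refine antitone_nat_of_succ_le (fun n => ?_)
    unfold cc
    exact div_le_div_of_nonneg_right (Finset.sum_le_sum (fun x _ => K.anti n x))
      (Nat.cast_nonneg _)
  exact this h

theorem cc_zero [Nonempty V] : cc K 0 = 1 := by
  obtain ⟨x⟩ := ‹Nonempty V›
  rw [← cc_eq K 0 x, pt_zero, if_pos rfl]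

theorem Par.card_pos {K : HW V} {θ : ℝ} {h : ℕ} (hP : Par K θ h) : 0 < Fintype.card V := by
  have h1 := hP.h_pos
  have h2 := hP.h_le
  rcases Nat.eq_zero_or_pos (Fintype.card V) with h0 | h0
  · rw [h0] at h2
    simp at h2
    omega
  · exact h0

theorem cc_mix {K : HW V} {θ : ℝ} {h : ℕ} (hP : Par K θ h) {t : ℕ} (ht : h ≤ t) :
    cc K t ≤ 3 / (2 * (Fintype.card V : ℝ)) := by
  obtain ⟨x⟩ := Fintype.card_pos_iff.mp hP.card_pos
  rw [← cc_eq K t x]
  exact hP.mix t ht x x

theorem cc_green_le {K : HW V} {θ : ℝ} {h : ℕ} (hP : Par K θ h) {N : ℕ}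
    (hN : N ≤ Nat.sqrt (Fintype.card V) + 1) :
    ∑ t ∈ Finset.range N, ((t : ℝ) + 1) * cc K t ≤ θ := by
  refine le_trans ?_ hP.green
  refine Finset.sum_le_sum_of_subset_of_nonneg (Finset.range_mono hN) (fun t _ _ => ?_)
  exact mul_nonneg (by positivity) (cc_nonneg K t)

theorem cc_tail_le {K : HW V} {θ : ℝ} {h : ℕ} (hP : Par K θ h) {j N : ℕ}
    (hN : N ≤ Nat.sqrt (Fintype.card V) + 1) :
    ∑ t ∈ Finset.Ico j N, cc K t ≤ θ / ((j : ℝ) + 1) := by
  have hj : (0 : ℝ) < (j : ℝ) + 1 := by positivity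
  rw [le_div_iff₀ hj, Finset.sum_mul]
  calc ∑ t ∈ Finset.Ico j N, cc K t * ((j : ℝ) + 1)
      ≤ ∑ t ∈ Finset.Ico j N, ((t : ℝ) + 1) * cc K t := by
        refine Finset.sum_le_sum (fun t ht => ?_)
        rw [mul_comm]
        refine mul_le_mul_of_nonneg_right ?_ (cc_nonneg K t)
        have : (j : ℝ) ≤ (t : ℝ) := by exact_mod_cast (Finset.mem_Ico.mp ht).1
        linarith
    _ ≤ ∑ t ∈ Finset.range N, ((t : ℝ) + 1) * cc K t := by
        refine Finset.sum_le_sum_of_subset_of_nonneg ?_ (fun t _ _ => ?_)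
        · intro t ht
          exact Finset.mem_range.mpr (Finset.mem_Ico.mp ht).2
        · exact mul_nonneg (by positivity) (cc_nonneg K t)
    _ ≤ θ := cc_green_le hP hN

theorem cc_sum_le {K : HW V} {θ : ℝ} {h : ℕ} (hP : Par K θ h) {N : ℕ}
    (hN : N ≤ Nat.sqrt (Fintype.card V) + 1) : ∑ t ∈ Finset.range N, cc K t ≤ θ := by
  have h1 := cc_tail_le hP (j := 0) hN
  rw [Nat.cast_zero, zero_add, div_one, ← Finset.range_eq_Ico] at h1
  exact h1

theorem cc_double_le {K : HW V} {θ : ℝ} {h : ℕ} (hP : Par K θ h) {M N : ℕ}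
    (hN : M + N ≤ Nat.sqrt (Fintype.card V) + 2) :
    ∑ s ∈ Finset.range M, ∑ t ∈ Finset.range N, cc K (s + t) ≤ θ := by
  rcases Nat.eq_zero_or_pos M with hM | hM
  · subst hM
    simp
    linarith [hP.one_le]
  rcases Nat.eq_zero_or_pos N with hN0 | hN0
  · subst hN0
    simp
    linarith [hP.one_le]
  set L := M + N - 1 with hL
  have hLle : L ≤ Nat.sqrt (Fintype.card V) + 1 := by omega
  calc ∑ s ∈ Finset.range M, ∑ t ∈ Finset.range N, cc K (s + t)
      ≤ ∑ s ∈ Finset.range M, ∑ u ∈ Finset.Ico s L, cc K u := by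
        refine Finset.sum_le_sum (fun s hs => ?_)
        have hs' := Finset.mem_range.mp hs
        have e : ∑ t ∈ Finset.range N, cc K (s + t) = ∑ u ∈ Finset.Ico s (s + N), cc K u := by
          rw [Finset.sum_Ico_eq_sum_range]
          congr 1
          congr 1
          omega
        rw [e]
        refine Finset.sum_le_sum_of_subset_of_nonneg ?_ (fun t _ _ => cc_nonneg K t)
        intro u hu
        rw [Finset.mem_Ico] at hu ⊢
        constructor
        · exact hu.1
        · omega
    _ ≤ ∑ s ∈ Finset.range L, ∑ u ∈ Finset.Ico s L, cc K u := by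
        refine Finset.sum_le_sum_of_subset_of_nonneg ?_
          (fun s _ _ => Finset.sum_nonneg (fun u _ => cc_nonneg K u))
        intro s hs
        rw [Finset.mem_range] at hs ⊢
        omega
    _ = ∑ u ∈ Finset.range L, ((u : ℝ) + 1) * cc K u := by
        rw [Finset.range_eq_Ico, Finset.sum_Ico_Ico_comm]
        refine Finset.sum_congr rfl (fun u _ => ?_)
        rw [Finset.sum_const, Nat.card_Ico, nsmul_eq_mul]
        push_cast
        simp
    _ ≤ θ := cc_green_le hP hLle

theorem W_lst (k : ℕ) (x : V) (g : V → ℝ) :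
    W K k x (fun l => g (lst x l)) = ∑ y, K.pt k x y * g y := by
  induction k generalizing x with
  | zero =>
    rw [W_zero]
    simp only [pt_zero, ite_mul, one_mul, zero_mul]
    rw [Finset.sum_ite_eq]
    simp [lst]
  | succ k ih =>
    rw [W_succ]
    simp only [A1_lst_cons]
    simp only [ih, pt_succ, Finset.mul_sum, Finset.sum_mul]
    rw [Finset.sum_comm]
    refine Finset.sum_congr rfl (fun z _ => Finset.sum_congr rfl (fun w _ => ?_))
    ring

theorem W_ind_lst (k : ℕ) (x y : V) : W K k x (fun l => ind (lst x l = y)) = K.pt k x y := by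
  rw [W_lst K k x (fun z => ind (z = y))]
  rw [Finset.sum_eq_single y]
  · rw [ind_true rfl, mul_one]
  · intro z _ hz
    rw [ind_false hz, mul_zero]
  · intro h
    exact absurd (Finset.mem_univ y) h

theorem W_ind_mem_le (k : ℕ) (x : V) (A : List V) (c : ℝ) (hc : ∀ y, K.pt k x y ≤ c) :
    W K k x (fun l => ind (lst x l ∈ A)) ≤ (A.length : ℝ) * c := by
  rw [W_lst K k x (fun z => ind (z ∈ A))]
  have hc0 : 0 ≤ c := le_trans (pt_nonneg K k x x) (hc x)
  calc ∑ y, K.pt k x y * ind (y ∈ A) = ∑ y ∈ A.toFinset, K.pt k x y := by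
        rw [← Finset.sum_filter_add_sum_filter_not Finset.univ (fun y => y ∈ A)]
        have h1 : ∑ y ∈ Finset.univ.filter (fun y => ¬ y ∈ A), K.pt k x y * ind (y ∈ A) = 0 := by
          refine Finset.sum_eq_zero (fun y hy => ?_)
          rw [ind_false (Finset.mem_filter.mp hy).2, mul_zero]
        rw [h1, add_zero]
        have h2 : Finset.univ.filter (fun y => y ∈ A) = A.toFinset := by
          ext y
          simp
        rw [h2]
        refine Finset.sum_congr rfl (fun y hy => ?_)
        rw [ind_true (List.mem_toFinset.mp hy), mul_one]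
    _ ≤ ∑ y ∈ A.toFinset, c := Finset.sum_le_sum (fun y _ => hc y)
    _ = (A.toFinset.card : ℝ) * c := by rw [Finset.sum_const, nsmul_eq_mul]
    _ ≤ (A.length : ℝ) * c := by
        refine mul_le_mul_of_nonneg_right ?_ hc0
        exact_mod_cast A.toFinset_card_le

end Pool.Agent.helper20.HP
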