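import Pool.Agent.helper20.HP.S1
import Pool.Agent.helper35.HP.E0
import Pool.Agent.helper29.HP.E4
import Pool.Agent.helper26.HP.E5
import Pool.Agent.helper81.HP.E6

/-!
Module E7 of the project MP_5ae64c_pr : comparison of the two triple sums.
-/

open scoped BigOperators Topology
open Filter MeasureTheory

namespace Pool.Agent.helper20.HP

section
variable {V : Type} [Fintype V] [DecidableEq V] {K : HW V} {θ : ℝ} {h : ℕ}

theorem E7_rtake_right {α : Type} (A C : List α) (n : ℕ) (hC : C.length = n) :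
    (A ++ C).rtake n = C := by
  unfold List.rtake
  have e : (A ++ C).length - n = A.length := by
    rw [List.length_append]; omega
  rw [e, List.drop_left]

theorem E7_rdrop_right {α : Type} (A C : List α) (n : ℕ) (hC : C.length = n) :
    (A ++ C).rdrop n = A := by
  unfold List.rdrop
  have e : (A ++ C).length - n = A.length := by
    rw [List.length_append]; omega
  rw [e, List.take_left]

theorem E7_rtake_mono {α : Type} (l : List α) {m n : ℕ} (hmn : m ≤ n) {y : α}
    (hy : y ∈ l.rtake m) : y ∈ l.rtake n := by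
  unfold List.rtake at hy ⊢
  exact List.drop_subset_drop_left l (by omega) hy

theorem E7_vp_take (o : V) (ψ : Aut K) (L : List (Aut K)) (n : ℕ) :
    vp o ψ (L.take n) = (vp o ψ L).take n := by
  induction L generalizing ψ n with
  | nil => simp [vp]
  | cons g L ih =>
    cases n with
    | zero => simp [vp]
    | succ n => simp [vp, ih]

/-- transport of an avoidance by an automorphism -/
theorem E7_move (o : V) (φ α : Aut K) (L M : List (Aut K))
    (hd : ∀ y ∈ vp o α L, y ∉ o :: vp o 1 M) : ∀ y ∈ vp o (φ * α) L, y ∉ vp o φ M := by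
  intro y hy hy'
  rw [vp_mul, List.mem_map] at hy
  obtain ⟨a, ha, rfl⟩ := hy
  have e : vp o φ M = (vp o 1 M).map φ.1 := by
    have := vp_mul (K := K) o φ 1 M
    rwa [mul_one] at this
  rw [e, List.mem_map] at hy'
  obtain ⟨c, hc, hce⟩ := hy'
  have : c = a := φ.1.injective hce
  subst this
  exact hd c ha (List.mem_cons_of_mem _ hc)

/-- the length of the loop erasure does not see the frame -/
theorem E7_lel (o : V) (ψ : Aut K) (L : List (Aut K)) :
    lel (ψ.1 o) (vp o ψ L) = lel o (vp o 1 L) := by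
  have e : vp o ψ L = (vp o 1 L).map ψ.1 := by
    have := vp_mul (K := K) o ψ 1 L
    rwa [mul_one] at this
  rw [e, lel_map]

omit [Fintype V] in
/-- level of a word which avoids the state -/
theorem E7_len (x : V) (ρ l1 l2 : List V) (hav : ∀ y ∈ l2, y ∉ run (x :: ρ) l1) :
    (run (x :: ρ) (l1 ++ l2)).length = (run (x :: ρ) l1).length + lel (lst x l1) l2 := by
  obtain ⟨τ, hτ⟩ := run_head x ρ l1
  rw [run_append]
  rw [hτ] at hav ⊢
  rw [run_avoid_length (lst x l1) τ l2 (fun y hy hm => hav y hy (List.mem_cons_of_mem _ hm))]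
  simp only [List.length_cons]
  omega

/-- hits for `err_B` -/
def E7_badB (Γ : List V) (b : ℕ) (x : V) (ρ l R F : List V) : Prop :=
  (∃ y ∈ R, y ∈ Γ ∨ y ∈ run (x :: ρ) (l.rdrop b)) ∨
  (∃ y ∈ F, y ∈ Γ ∨ y ∈ run (x :: ρ) (l.rdrop b)) ∨
  (∃ y ∈ F.drop b, y ∈ (x :: (l ++ R)).rtake (b + 1 + R.length))

/-- hits for `err_D` -/
def E7_badD (Γ : List V) (b : ℕ) (x : V) (ρ l F : List V) : Prop :=
  (∃ y ∈ F, y ∈ Γ ∨ y ∈ run (x :: ρ) (l.rdrop b)) ∨
  (∃ y ∈ F.drop b, y ∈ (x :: l).rtake (b + 1))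

/-- facts about a junction -/
theorem E7_junction (o x : V) (b g : ℕ) (P R F : List (Aut K)) (hP : b ≤ P.length)
    (hE : Ev K o b g (P.rtake b) R (F.take b)) :
    lst x (vp o (fr K o x) P) = (fr K o x * P.prod).1 o ∧
    lst (lst x (vp o (fr K o x) P)) (vp o (fr K o x * P.prod) R)
      = (fr K o x * P.prod * R.prod).1 o ∧
    lel (lst x (vp o (fr K o x) P)) (vp o (fr K o x * P.prod) R) = g ∧
    lel (lst (lst x (vp o (fr K o x) P)) (vp o (fr K o x * P.prod) R))
        (vp o (fr K o x * P.prod * R.prod) F)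
      = lel (lst x (vp o (fr K o x) P)) (vp o (fr K o x * P.prod) F) ∧
    ∃ l0 lB : List V, vp o (fr K o x) P = l0 ++ lB ∧ lB.length = b ∧
      (∀ y ∈ vp o (fr K o x * P.prod) R, y ∉ lB) ∧
      (∀ y ∈ (vp o (fr K o x * P.prod * R.prod) F).take b, y ∉ lB ++ vp o (fr K o x * P.prod) R) ∧
      (∀ y ∈ (vp o (fr K o x * P.prod) F).take b, y ∉ lB) := by
  obtain ⟨h1, h2, h3, h4, -⟩ := hE
  have e1 : lst x (vp o (fr K o x) P) = (fr K o x * P.prod).1 o := by
    have := vp_lst (K := K) o (fr K o x) P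
    rwa [fr_spec] at this
  have e2 : lst (lst x (vp o (fr K o x) P)) (vp o (fr K o x * P.prod) R)
      = (fr K o x * P.prod * R.prod).1 o := by
    rw [e1]
    exact vp_lst K o (fr K o x * P.prod) R
  have e3 : lel (lst x (vp o (fr K o x) P)) (vp o (fr K o x * P.prod) R) = g := by
    rw [e1, E7_lel, h1]
  have e4 : lel (lst (lst x (vp o (fr K o x) P)) (vp o (fr K o x * P.prod) R))
        (vp o (fr K o x * P.prod * R.prod) F)
      = lel (lst x (vp o (fr K o x) P)) (vp o (fr K o x * P.prod) F) := by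
    rw [e2, e1, E7_lel, E7_lel]
  refine ⟨e1, e2, e3, e4, ?_⟩
  set P0 := P.rdrop b with hP0
  set B := P.rtake b with hB
  have hPB : P0 ++ B = P := by
    rw [hP0, hB]
    unfold List.rdrop List.rtake
    exact List.take_append_drop _ _
  have hBl : B.length = b := by
    rw [hB, List.rtake, List.length_drop]
    omega
  have hprod : fr K o x * P.prod = (fr K o x * P0.prod) * B.prod := by
    rw [← hPB, List.prod_append, mul_assoc]
  refine ⟨vp o (fr K o x) P0, vp o (fr K o x * P0.prod) B, ?_, ?_, ?_, ?_, ?_⟩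
  · rw [← hPB, vp_append]
  · rw [vp_length, hBl]
  · rw [hprod]
    exact E7_move o _ _ _ _ h2
  · rw [← E7_vp_take, hprod, ← vp_append, mul_assoc (fr K o x * P0.prod) B.prod R.prod]
    exact E7_move o _ _ _ _ h3
  · rw [← E7_vp_take, hprod]
    exact E7_move o _ _ _ _ h4

theorem E7_ind_of_mul (p q r : Prop) (h0 : ind p * ind q * ind r ≠ 0) : p ∧ q ∧ r := by
  refine ⟨?_, ?_, ?_⟩
  · by_contra hp
    exact h0 (by rw [ind_false hp]; ring)
  · by_contra hq
    exact h0 (by rw [ind_false hq]; ring)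
  · by_contra hr
    exact h0 (by rw [ind_false hr]; ring)

theorem E7_okL3 (o : V) (Γ : List V) (x : V) (P R F : List (Aut K)) :
    okL K o Γ x (P ++ (R ++ F)) ↔ okL K o Γ x P ∧
      (∀ y ∈ vp o (fr K o x * P.prod) R, y ∉ Γ) ∧
      (∀ y ∈ vp o (fr K o x * P.prod * R.prod) F, y ∉ Γ) := by
  rw [E0_okL_append, vp_append]
  constructor
  · rintro ⟨h1, h2⟩
    exact ⟨h1, fun y hy => h2 y (List.mem_append_left _ hy),
      fun y hy => h2 y (List.mem_append_right _ hy)⟩
  · rintro ⟨h1, h2, h3⟩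
    refine ⟨h1, fun y hy => ?_⟩
    rcases List.mem_append.1 hy with hy | hy
    · exact h2 y hy
    · exact h3 y hy

/-- first pointwise comparison -/
theorem E7_point1 (o : V) (Γ : List V) (b g r : ℕ) (x : V) (ρ : List V) (P R F : List (Aut K))
    (hP : b ≤ P.length) :
    g1 K o Γ b g r x ρ P R F ≤ g2 K o Γ b g r x ρ P R F
      + g1 K o Γ b g r x ρ P R F * ind (LHin b F.length x ρ (vp o (fr K o x) (P ++ F)))
      + ind (okL K o Γ x P) *
        (ind (lel (lst x (vp o (fr K o x) P)) (vp o (fr K o x * P.prod) R) = g) *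
         ind ((run (x :: ρ) (vp o (fr K o x) P)).length +
            lel (lst (lst x (vp o (fr K o x) P)) (vp o (fr K o x * P.prod) R))
              (vp o (fr K o x * P.prod * R.prod) F) = r + 1) *
         ind (E7_badB Γ b x ρ (vp o (fr K o x) P) (vp o (fr K o x * P.prod) R)
            (vp o (fr K o x * P.prod * R.prod) F))) := by
  have n1 : 0 ≤ g1 K o Γ b g r x ρ P R F :=
    mul_nonneg (mul_nonneg (ind_nonneg _) (ind_nonneg _)) (ind_nonneg _)
  have n2 : 0 ≤ g2 K o Γ b g r x ρ P R F :=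
    mul_nonneg (mul_nonneg (ind_nonneg _) (ind_nonneg _)) (ind_nonneg _)
  set lP := vp o (fr K o x) P with hlP
  set lR := vp o (fr K o x * P.prod) R with hlR
  set lF := vp o (fr K o x * P.prod) F with hlF
  set lF' := vp o (fr K o x * P.prod * R.prod) F with hlF'
  have n3 : 0 ≤ ind (okL K o Γ x P) * (ind (lel (lst x lP) lR = g) *
      ind ((run (x :: ρ) lP).length + lel (lst (lst x lP) lR) lF' = r + 1) *
      ind (E7_badB Γ b x ρ lP lR lF')) :=
    mul_nonneg (ind_nonneg _) (mul_nonneg (mul_nonneg (ind_nonneg _) (ind_nonneg _)) (ind_nonneg _))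
  have n4 : 0 ≤ g1 K o Γ b g r x ρ P R F * ind (LHin b F.length x ρ (vp o (fr K o x) (P ++ F))) :=
    mul_nonneg n1 (ind_nonneg _)
  by_cases h0 : g1 K o Γ b g r x ρ P R F = 0
  · rw [h0] at n4 ⊢
    linarith
  obtain ⟨hE, hok, hst⟩ := E7_ind_of_mul _ _ _ h0
  have hg1 : g1 K o Γ b g r x ρ P R F = 1 := by
    unfold g1
    rw [ind_true hE, ind_true hok, ind_true hst]
    ring
  by_cases hLH : LHin b F.length x ρ (vp o (fr K o x) (P ++ F))
  · rw [ind_true hLH, mul_one]
    linarith
  rw [vp_append, ← hlP, ← hlF] at hLH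
  have hlFl : lF.length = F.length := by rw [hlF, vp_length]
  rw [← hlFl] at hLH
  rw [not_LHin_iff b lF.length x ρ lP lF rfl] at hLH
  obtain ⟨-, -, e3, e4, l0, lB, hsplit, hBl, c2, c3, c4⟩ := E7_junction o x b g P R F hP hE
  rw [← hlP] at e3 e4 hsplit
  rw [← hlR] at e3 e4 c2 c3
  rw [← hlF'] at e4 c3
  rw [← hlF] at e4 c4
  have hrt : (x :: lP).rtake b = lB := by
    rw [hsplit, ← List.cons_append]
    exact E7_rtake_right _ _ _ hBl
  have hav : ∀ y ∈ lF, y ∉ run (x :: ρ) lP := by
    refine hit_is_LH b x ρ lP lF ?_ hLH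
    rw [hrt]
    exact c4
  have hlev : (run (x :: ρ) lP).length + lel (lst x lP) lF = r + 1 := by
    have h1 := E7_len x ρ lP lF hav
    have h2 : (run (x :: ρ) (lP ++ lF)).length = r + 1 := by
      have := hst
      unfold stL at this
      rw [vp_append] at this
      exact this
    omega
  have hokP : okL K o Γ x P := ((E0_okL_append o Γ x P F).1 hok).1
  by_cases hbad : E7_badB Γ b x ρ lP lR lF'
  · have : ind (okL K o Γ x P) * (ind (lel (lst x lP) lR = g) *
      ind ((run (x :: ρ) lP).length + lel (lst (lst x lP) lR) lF' = r + 1) *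
      ind (E7_badB Γ b x ρ lP lR lF')) = 1 := by
      rw [ind_true hokP, ind_true e3, ind_true hbad, e4, ind_true hlev]
      ring
    linarith
  · -- no bad hit : the second word is good
    have hrd : lP.rdrop b = l0 := by
      rw [hsplit]
      exact E7_rdrop_right _ _ _ hBl
    unfold E7_badB at hbad
    push Not at hbad
    obtain ⟨b1, b2, b3⟩ := hbad
    rw [hrd] at b1 b2
    have hrt2 : (x :: (lP ++ lR)).rtake (b + R.length) = lB ++ lR := by
      rw [hsplit, List.append_assoc, ← List.cons_append]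
      refine E7_rtake_right _ _ _ ?_
      rw [List.length_append, hBl, hlR, vp_length]
    have hrun : run (x :: ρ) lP = run (run (x :: ρ) l0) lB := by
      rw [hsplit, run_append]
    -- R avoids the state of P
    have hR : ∀ y ∈ lR, y ∉ run (x :: ρ) lP := by
      intro y hy hm
      rw [hrun] at hm
      rcases mem_run hm with hm | hm
      · exact (b1 y hy).2 hm
      · exact c2 y hy hm
    have hlRl : lR.length = R.length := by rw [hlR, vp_length]
    -- F avoids the state of PR
    have hF : ∀ y ∈ lF', y ∉ run (x :: ρ) (lP ++ lR) := by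
      intro y hy hm
      rw [hsplit, List.append_assoc, run_append] at hm
      rcases mem_run hm with hm | hm
      · exact (b2 y hy).2 hm
      · have hy2 : y ∈ lF'.take b ++ lF'.drop b := by rwa [List.take_append_drop]
        rcases List.mem_append.1 hy2 with hy3 | hy3
        · exact c3 y hy3 hm
        · refine b3 y hy3 ?_
          rw [← hrt2] at hm
          exact E7_rtake_mono _ (by rw [hlRl]; omega) hm
    have hok2 : okL K o Γ x (P ++ (R ++ F)) := by
      rw [E7_okL3]
      exact ⟨hokP, fun y hy => (b1 y hy).1, fun y hy => (b2 y hy).1⟩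
    have hst2 : stL K o x ρ (P ++ (R ++ F)) = r + g + 1 := by
      unfold stL
      rw [vp_append, vp_append, ← hlP, ← hlR, ← hlF', ← List.append_assoc,
        E7_len x ρ (lP ++ lR) lF' hF, E7_len x ρ lP lR hR, lst_append, e3, e4]
      omega
    have hg2 : g2 K o Γ b g r x ρ P R F = 1 := by
      unfold g2
      rw [ind_true hE, ind_true hok2, ind_true hst2]
      ring
    linarith

/-- second pointwise comparison -/
theorem E7_point2 (o : V) (Γ : List V) (b g r : ℕ) (x : V) (ρ : List V) (P R F : List (Aut K))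
    (hP : b ≤ P.length) :
    g2 K o Γ b g r x ρ P R F ≤ g1 K o Γ b g r x ρ P R F
      + g2 K o Γ b g r x ρ P R F *
        ind (LHin b (R.length + F.length) x ρ (vp o (fr K o x) (P ++ (R ++ F))))
      + ind (lel o (vp o 1 R) = g) * (ind (okL K o Γ x P) *
         (ind ((run (x :: ρ) (vp o (fr K o x) P)).length +
            lel (lst x (vp o (fr K o x) P)) (vp o (fr K o x * P.prod) F) = r + 1) *
         ind (E7_badD Γ b x ρ (vp o (fr K o x) P) (vp o (fr K o x * P.prod) F)))) := by
  have n1 : 0 ≤ g1 K o Γ b g r x ρ P R F :=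
    mul_nonneg (mul_nonneg (ind_nonneg _) (ind_nonneg _)) (ind_nonneg _)
  have n2 : 0 ≤ g2 K o Γ b g r x ρ P R F :=
    mul_nonneg (mul_nonneg (ind_nonneg _) (ind_nonneg _)) (ind_nonneg _)
  set lP := vp o (fr K o x) P with hlP
  set lR := vp o (fr K o x * P.prod) R with hlR
  set lF := vp o (fr K o x * P.prod) F with hlF
  set lF' := vp o (fr K o x * P.prod * R.prod) F with hlF'
  have n3 : 0 ≤ ind (lel o (vp o 1 R) = g) * (ind (okL K o Γ x P) * (
      ind ((run (x :: ρ) lP).length + lel (lst x lP) lF = r + 1) *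
      ind (E7_badD Γ b x ρ lP lF))) :=
    mul_nonneg (ind_nonneg _) (mul_nonneg (ind_nonneg _) (mul_nonneg (ind_nonneg _) (ind_nonneg _)))
  have n4 : 0 ≤ g2 K o Γ b g r x ρ P R F *
      ind (LHin b (R.length + F.length) x ρ (vp o (fr K o x) (P ++ (R ++ F)))) :=
    mul_nonneg n2 (ind_nonneg _)
  by_cases h0 : g2 K o Γ b g r x ρ P R F = 0
  · rw [h0] at n4 ⊢
    linarith
  obtain ⟨hE, hok, hst⟩ := E7_ind_of_mul _ _ _ h0
  have hg2 : g2 K o Γ b g r x ρ P R F = 1 := by
    unfold g2
    rw [ind_true hE, ind_true hok, ind_true hst]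
    ring
  by_cases hLH : LHin b (R.length + F.length) x ρ (vp o (fr K o x) (P ++ (R ++ F)))
  · rw [ind_true hLH, mul_one]
    linarith
  have hlRl : lR.length = R.length := by rw [hlR, vp_length]
  have hlFl : lF'.length = F.length := by rw [hlF', vp_length]
  rw [vp_append, vp_append, ← hlP, ← hlR, ← hlF'] at hLH
  rw [not_LHin_iff b (R.length + F.length) x ρ lP (lR ++ lF')
    (by rw [List.length_append, hlRl, hlFl]), NoLH_append] at hLH
  obtain ⟨hL1, hL2⟩ := hLH
  obtain ⟨-, -, e3, e4, l0, lB, hsplit, hBl, c2, c3, c4⟩ := E7_junction o x b g P R F hP hE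
  rw [← hlP] at e3 e4 hsplit
  rw [← hlR] at e3 e4 c2 c3
  rw [← hlF'] at e4 c3
  rw [← hlF] at e4 c4
  have hrt : (x :: lP).rtake b = lB := by
    rw [hsplit, ← List.cons_append]
    exact E7_rtake_right _ _ _ hBl
  have hrt2 : (x :: (lP ++ lR)).rtake (b + R.length) = lB ++ lR := by
    rw [hsplit, List.append_assoc, ← List.cons_append]
    refine E7_rtake_right _ _ _ ?_
    rw [List.length_append, hBl, hlR, vp_length]
  have hR : ∀ y ∈ lR, y ∉ run (x :: ρ) lP := by
    refine hit_is_LH b x ρ lP lR ?_ hL1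
    rw [hrt]
    intro y hy
    exact c2 y (List.mem_of_mem_take hy)
  have hF : ∀ y ∈ lF', y ∉ run (x :: ρ) (lP ++ lR) := by
    refine hit_is_LH b x ρ (lP ++ lR) lF' ?_ hL2
    intro y hy hm
    have hm2 := E7_rtake_mono _ (show b ≤ b + R.length by omega) hm
    rw [hrt2] at hm2
    exact c3 y hy hm2
  have hlev : (run (x :: ρ) lP).length + lel (lst x lP) lF = r + 1 := by
    have h2 : (run (x :: ρ) (lP ++ (lR ++ lF'))).length = r + g + 1 := by
      have := hst
      unfold stL at this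
      rw [vp_append, vp_append] at this
      exact this
    rw [← List.append_assoc, E7_len x ρ (lP ++ lR) lF' hF, E7_len x ρ lP lR hR, lst_append, e3,
      e4] at h2
    omega
  have hok3 := (E7_okL3 o Γ x P R F).1 hok
  have hokP : okL K o Γ x P := hok3.1
  have hg : lel o (vp o 1 R) = g := hE.1
  by_cases hbad : E7_badD Γ b x ρ lP lF
  · have : ind (lel o (vp o 1 R) = g) * (ind (okL K o Γ x P) * (
      ind ((run (x :: ρ) lP).length + lel (lst x lP) lF = r + 1) *
      ind (E7_badD Γ b x ρ lP lF))) = 1 := by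
      rw [ind_true hg, ind_true hokP, ind_true hbad, ind_true hlev]
      ring
    linarith
  · have hrd : lP.rdrop b = l0 := by
      rw [hsplit]
      exact E7_rdrop_right _ _ _ hBl
    unfold E7_badD at hbad
    push Not at hbad
    obtain ⟨b1, b2⟩ := hbad
    rw [hrd] at b1
    have hav : ∀ y ∈ lF, y ∉ run (x :: ρ) lP := by
      intro y hy hm
      rw [hsplit, run_append] at hm
      rcases mem_run hm with hm | hm
      · exact (b1 y hy).2 hm
      · have hy2 : y ∈ lF.take b ++ lF.drop b := by rwa [List.take_append_drop]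
        rcases List.mem_append.1 hy2 with hy3 | hy3
        · exact c4 y hy3 hm
        · refine b2 y hy3 ?_
          rw [← hrt] at hm
          exact E7_rtake_mono _ (by omega) hm
    have hok1 : okL K o Γ x (P ++ F) := by
      rw [E0_okL_append]
      exact ⟨hokP, fun y hy => (b1 y hy).1⟩
    have hst1 : stL K o x ρ (P ++ F) = r + 1 := by
      unfold stL
      rw [vp_append, ← hlP, ← hlF, E7_len x ρ lP lF hav]
      exact hlev
    have hg1 : g1 K o Γ b g r x ρ P R F = 1 := by
      unfold g1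
      rw [ind_true hE, ind_true hok1, ind_true hst1]
      ring
    linarith

/-- killed words followed by two words, letter form -/
theorem E7_kmT3 (o : V) (Γ : List V) (s u m : ℕ)
    (f : V → List V → List V → List V → List V → ℝ) :
    kmT K Γ s (fun x ρ l => W K u (lst x l) (fun R => W K m (lst (lst x l) R) (fun F =>
        f x ρ l R F)))
      = ∑ i : Fin Γ.length, EL K o s (fun P => EL K o u (fun R => EL K o m (fun F =>
        ind (okL K o Γ (Γ.get i) P) * f (Γ.get i) (Γ.drop (i + 1)) (vp o (fr K o (Γ.get i)) P)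
          (vp o (fr K o (Γ.get i) * P.prod) R) (vp o (fr K o (Γ.get i) * P.prod * R.prod) F)))) := by
  rw [kmT_eq_kmTL o]
  unfold kmTL
  refine Finset.sum_congr rfl (fun i _ => ?_)
  refine EL_congr K o s (fun P _ => ?_)
  have e1 : lst (Γ.get i) (vp o (fr K o (Γ.get i)) P) = (fr K o (Γ.get i) * P.prod).1 o := by
    have := vp_lst (K := K) o (fr K o (Γ.get i)) P
    rwa [fr_spec] at this
  beta_reduce
  rw [e1, W_eq_EL, ← EL_mul_left]
  refine EL_congr K o u (fun R _ => ?_)
  rw [vp_lst, W_eq_EL, ← EL_mul_left]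

/-- killed words followed by a word, letter form -/
theorem E7_kmT2 (o : V) (Γ : List V) (s m : ℕ)
    (f : V → List V → List V → List V → ℝ) :
    kmT K Γ s (fun x ρ l => W K m (lst x l) (fun F => f x ρ l F))
      = ∑ i : Fin Γ.length, EL K o s (fun P => EL K o m (fun F =>
        ind (okL K o Γ (Γ.get i) P) * f (Γ.get i) (Γ.drop (i + 1)) (vp o (fr K o (Γ.get i)) P)
          (vp o (fr K o (Γ.get i) * P.prod) F))) := by
  rw [kmT_eq_kmTL o]
  unfold kmTL
  refine Finset.sum_congr rfl (fun i _ => ?_)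
  refine EL_congr K o s (fun P _ => ?_)
  have e1 : lst (Γ.get i) (vp o (fr K o (Γ.get i)) P) = (fr K o (Γ.get i) * P.prod).1 o := by
    have := vp_lst (K := K) o (fr K o (Γ.get i)) P
    rwa [fr_spec] at this
  beta_reduce
  rw [e1, W_eq_EL, ← EL_mul_left]

theorem E7_reindex (S N m b : ℕ) (hm : m + b ≤ S) (A : ℕ → ℝ) (hA : ∀ s, 0 ≤ A s) :
    ∑ t ∈ Finset.Ico S N, A (t - m) ≤ ∑ s ∈ Finset.Ico b N, A s := by
  rcases Nat.lt_or_ge N S with hN | hN
  · rw [Finset.Ico_eq_empty (by omega), Finset.sum_empty]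
    exact Finset.sum_nonneg (fun s _ => hA s)
  · have e := Finset.sum_Ico_add' (fun t => A (t - m)) (S - m) (N - m) m
    rw [show S - m + m = S by omega, show N - m + m = N by omega] at e
    rw [← e]
    have e2 : ∀ t ∈ Finset.Ico (S - m) (N - m), A (t + m - m) = A t := by
      intro t _
      rw [Nat.add_sub_cancel]
    rw [Finset.sum_congr rfl e2]
    refine Finset.sum_le_sum_of_subset_of_nonneg ?_ (fun s _ _ => hA s)
    intro s hs
    rw [Finset.mem_Ico] at hs ⊢
    omega

/-- comparison of triple sums from a pointwise comparison -/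
theorem E7_tri_le3 (o : V) (Γ : List V) (m0 M U S N : ℕ)
    (f f1 f2 f3 : V → List V → List (Aut K) → List (Aut K) → List (Aut K) → ℝ)
    (hf : ∀ m u t : ℕ, m ∈ Finset.Ioc m0 (m0 + M) → u ∈ Finset.range (U + 1) →
      t ∈ Finset.Ico S N → ∀ x ρ P R F, P.length = t - m → R.length = u → F.length = m →
        f x ρ P R F ≤ f1 x ρ P R F + f2 x ρ P R F + f3 x ρ P R F) :
    tri K o Γ m0 M U S N f ≤ tri K o Γ m0 M U S N f1 + tri K o Γ m0 M U S N f2
      + tri K o Γ m0 M U S N f3 := by
  unfold tri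
  simp only [← Finset.sum_add_distrib, ← EL_add]
  refine Finset.sum_le_sum (fun m hm => ?_)
  refine Finset.sum_le_sum (fun u hu => ?_)
  refine Finset.sum_le_sum (fun t ht => ?_)
  refine Finset.sum_le_sum (fun i _ => ?_)
  refine EL_mono K o _ (fun P hP => ?_)
  refine EL_mono K o _ (fun R hR => ?_)
  refine EL_mono K o _ (fun F hF => ?_)
  exact hf m u t hm hu ht _ _ P R F hP hR hF

end

theorem tri_compare (θ A : ℝ) : ∃ C : ℝ, 0 < C ∧ ∀ (V : Type) [Fintype V] [DecidableEq V] (K : HW V)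
    (h : ℕ), Par K θ h → ∀ (o : V) (Γ : List V), Γ.Nodup →
    (Γ.length : ℝ) ≤ A * Nat.sqrt (Fintype.card V) →
    ∀ r g m0 M U S N : ℕ, (r : ℝ) ≤ A * Nat.sqrt (Fintype.card V) → 1 ≤ g → 2 * h ≤ m0 →
    m0 + M + 2 * h + U ≤ S → 4 * (m0 + M + U) ≤ Nat.sqrt (Fintype.card V) →
    |tri K o Γ m0 M U S N (g1 K o Γ (2 * h) g r) - tri K o Γ m0 M U S N (g2 K o Γ (2 * h) g r)|
      ≤ C * (((m0 : ℝ) + M + 1) * (m0 + M + U + h)) := by
  obtain ⟨CB, hCB, HB⟩ := err_B θ A
  obtain ⟨CD, hCD, HD⟩ := err_D θ A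
  have hCZ : 0 ≤ CZ θ := by unfold CZ; positivity
  refine ⟨3 / 2 * CZ θ ^ 2 + 3 / 2 * CZ θ + CB + CZ θ * CD, by positivity, ?_⟩
  intro V _ _ K h hP o Γ hΓ hΓl r g m0 M U S N hr hg hm0 hS hL
  have hh := hP.h_pos
  set Q : ℝ := ((m0 : ℝ) + M + 1) * (m0 + M + U + h) with hQ
  have hQ0 : 0 ≤ Q := by positivity
  have hh1 : (1 : ℝ) ≤ h := by exact_mod_cast hh
  have hm0r : (0 : ℝ) ≤ m0 := Nat.cast_nonneg _
  have hMr : (0 : ℝ) ≤ M := Nat.cast_nonneg _
  have hUr : (0 : ℝ) ≤ U := Nat.cast_nonneg _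
  -- the four errors
  have ha := err_a hP o Γ hΓ g r m0 M U S N hm0 hS hL
  have hc := err_c hP o Γ hΓ g r m0 M U S N hg hm0 hS hL
  have ha' : (M : ℝ) * ((m0 : ℝ) + M + 1) ≤ Q := by
    rw [hQ, mul_comm]
    refine mul_le_mul_of_nonneg_left ?_ (by positivity)
    linarith
  have hc' : (M : ℝ) * ((m0 : ℝ) + M + U + 1) ≤ Q := by
    rw [hQ]
    refine mul_le_mul ?_ ?_ (by positivity) (by positivity)
    · linarith
    · linarith
  -- error B
  set fB : V → List V → List (Aut K) → List (Aut K) → List (Aut K) → ℝ := fun x ρ P R F =>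
    ind (okL K o Γ x P) *
        (ind (lel (lst x (vp o (fr K o x) P)) (vp o (fr K o x * P.prod) R) = g) *
         ind ((run (x :: ρ) (vp o (fr K o x) P)).length +
            lel (lst (lst x (vp o (fr K o x) P)) (vp o (fr K o x * P.prod) R))
              (vp o (fr K o x * P.prod * R.prod) F) = r + 1) *
         ind (E7_badB Γ (2 * h) x ρ (vp o (fr K o x) P) (vp o (fr K o x * P.prod) R)
            (vp o (fr K o x * P.prod * R.prod) F))) with hfB
  have hB : tri K o Γ m0 M U S N fB ≤ CB * Q := by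
    have h1 := HB V K h hP Γ hΓ hΓl r g (m0 + M) U N hr (by omega) (by omega)
    have h2 : tri K o Γ m0 M U S N fB ≤ ∑ m ∈ Finset.range (m0 + M + 1),
        ∑ u ∈ Finset.range (U + 1), ∑ s ∈ Finset.Ico (2 * h) N,
      kmT K Γ s (fun x ρ l => W K u (lst x l) (fun R => W K m (lst (lst x l) R) (fun F =>
        ind (lel (lst x l) R = g) *
        ind ((run (x :: ρ) l).length + lel (lst (lst x l) R) F = r + 1) *
        ind ((∃ y ∈ R, y ∈ Γ ∨ y ∈ run (x :: ρ) (l.rdrop (2 * h))) ∨
          (∃ y ∈ F, y ∈ Γ ∨ y ∈ run (x :: ρ) (l.rdrop (2 * h))) ∨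
          (∃ y ∈ F.drop (2 * h), y ∈ (x :: (l ++ R)).rtake (2 * h + 1 + R.length)))))) := by
      have hnn : ∀ m u s, 0 ≤ kmT K Γ s (fun x ρ l => W K u (lst x l) (fun R =>
          W K m (lst (lst x l) R) (fun F =>
        ind (lel (lst x l) R = g) *
        ind ((run (x :: ρ) l).length + lel (lst (lst x l) R) F = r + 1) *
        ind ((∃ y ∈ R, y ∈ Γ ∨ y ∈ run (x :: ρ) (l.rdrop (2 * h))) ∨
          (∃ y ∈ F, y ∈ Γ ∨ y ∈ run (x :: ρ) (l.rdrop (2 * h))) ∨
          (∃ y ∈ F.drop (2 * h), y ∈ (x :: (l ++ R)).rtake (2 * h + 1 + R.length)))))) := by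
        intro m u s
        refine kmT_nonneg K Γ s (fun x ρ l => ?_)
        refine W_nonneg K u _ (fun R _ => ?_)
        refine W_nonneg K m _ (fun F _ => ?_)
        exact mul_nonneg (mul_nonneg (ind_nonneg _) (ind_nonneg _)) (ind_nonneg _)
      unfold tri
      refine le_trans ?_ (Finset.sum_le_sum_of_subset_of_nonneg
        (s := Finset.Ioc m0 (m0 + M)) ?_ (fun m _ _ => Finset.sum_nonneg (fun u _ =>
          Finset.sum_nonneg (fun s _ => hnn m u s))))
      · refine Finset.sum_le_sum (fun m hm => ?_)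
        rw [Finset.mem_Ioc] at hm
        refine Finset.sum_le_sum (fun u _ => ?_)
        refine le_trans (le_of_eq ?_) (E7_reindex S N m (2 * h) (by omega) _ (fun s => hnn m u s))
        refine Finset.sum_congr rfl (fun t _ => ?_)
        exact (E7_kmT3 o Γ (t - m) u m (fun x ρ l R F => ind (lel (lst x l) R = g) *
          ind ((run (x :: ρ) l).length + lel (lst (lst x l) R) F = r + 1) *
          ind (E7_badB Γ (2 * h) x ρ l R F))).symm
      · intro m hm
        rw [Finset.mem_Ioc] at hm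
        rw [Finset.mem_range]
        omega
    refine h2.trans (h1.trans (le_of_eq ?_))
    rw [hQ]
    push_cast
    ring
  -- error D
  set fD : V → List V → List (Aut K) → List (Aut K) → List (Aut K) → ℝ := fun x ρ P R F =>
    ind (lel o (vp o 1 R) = g) * (ind (okL K o Γ x P) *
         (ind ((run (x :: ρ) (vp o (fr K o x) P)).length +
            lel (lst x (vp o (fr K o x) P)) (vp o (fr K o x * P.prod) F) = r + 1) *
         ind (E7_badD Γ (2 * h) x ρ (vp o (fr K o x) P) (vp o (fr K o x * P.prod) F)))) with hfD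
  have hD : tri K o Γ m0 M U S N fD ≤ CZ θ * (CD * Q) := by
    have h1 := HD V K h hP Γ hΓ hΓl r (m0 + M) N hr (by omega) (by omega)
    set kD : ℕ → ℕ → ℝ := fun m s => kmT K Γ s (fun x ρ l =>
      W K m (lst x l) (fun F =>
        ind ((run (x :: ρ) l).length + lel (lst x l) F = r + 1) *
        ind ((∃ y ∈ F, y ∈ Γ ∨ y ∈ run (x :: ρ) (l.rdrop (2 * h))) ∨
          (∃ y ∈ F.drop (2 * h), y ∈ (x :: l).rtake (2 * h + 1))))) with hkD
    have hnn : ∀ m s, 0 ≤ kD m s := by
      intro m s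
      refine kmT_nonneg K Γ s (fun x ρ l => ?_)
      refine W_nonneg K m _ (fun F _ => ?_)
      exact mul_nonneg (ind_nonneg _) (ind_nonneg _)
    have hZ : ∑ u ∈ Finset.range (U + 1), EL K o u (fun R => ind (lel o (vp o 1 R) = g)) ≤ CZ θ := by
      have hz := Zq_le hP U g o (by omega)
      unfold Zq at hz
      refine le_trans (le_of_eq ?_) hz
      refine Finset.sum_congr rfl (fun u _ => ?_)
      have := W_eq_EL K o (1 : Aut K) u (fun l => ind (lel o l = g))
      exact this.symm
    have h2 : tri K o Γ m0 M U S N fD ≤ CZ θ * ∑ m ∈ Finset.range (m0 + M + 1),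
        ∑ s ∈ Finset.Ico (2 * h) N, kD m s := by
      unfold tri
      rw [Finset.mul_sum]
      refine le_trans ?_ (Finset.sum_le_sum_of_subset_of_nonneg
        (s := Finset.Ioc m0 (m0 + M)) ?_ (fun m _ _ => mul_nonneg hCZ
          (Finset.sum_nonneg (fun s _ => hnn m s))))
      · refine Finset.sum_le_sum (fun m hm => ?_)
        rw [Finset.mem_Ioc] at hm
        have e1 : ∀ u ∈ Finset.range (U + 1), ∑ t ∈ Finset.Ico S N, ∑ i : Fin Γ.length,
            EL K o (t - m) (fun P => EL K o u (fun R => EL K o m (fun F =>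
              fD (Γ.get i) (Γ.drop (i + 1)) P R F)))
            = EL K o u (fun R => ind (lel o (vp o 1 R) = g)) * ∑ t ∈ Finset.Ico S N, kD m (t - m) := by
          intro u _
          rw [Finset.mul_sum]
          refine Finset.sum_congr rfl (fun t _ => ?_)
          have e2 : kD m (t - m) = _ := E7_kmT2 o Γ (t - m) m (fun x ρ l F =>
            ind ((run (x :: ρ) l).length + lel (lst x l) F = r + 1) *
            ind (E7_badD Γ (2 * h) x ρ l F))
          rw [e2, Finset.mul_sum]
          refine Finset.sum_congr rfl (fun i _ => ?_)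
          rw [← EL_mul_left]
          refine EL_congr K o _ (fun P _ => ?_)
          rw [← EL_mul_right]
          refine EL_congr K o _ (fun R _ => ?_)
          rw [← EL_mul_left]
        rw [Finset.sum_congr rfl e1, ← Finset.sum_mul]
        have e3 := E7_reindex S N m (2 * h) (by omega) (kD m) (hnn m)
        refine mul_le_mul hZ e3 (Finset.sum_nonneg (fun t _ => hnn m _)) hCZ
      · intro m hm
        rw [Finset.mem_Ioc] at hm
        rw [Finset.mem_range]
        omega
    refine h2.trans (mul_le_mul_of_nonneg_left (h1.trans ?_) hCZ)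
    refine mul_le_mul_of_nonneg_left ?_ hCD.le
    rw [hQ]
    push_cast
    refine mul_le_mul_of_nonneg_left ?_ (by positivity)
    linarith
  have hlen : ∀ m t : ℕ, m ∈ Finset.Ioc m0 (m0 + M) → t ∈ Finset.Ico S N → 2 * h ≤ t - m := by
    intro m t hm ht
    rw [Finset.mem_Ioc] at hm
    rw [Finset.mem_Ico] at ht
    omega
  have t1 := E7_tri_le3 (K := K) o Γ m0 M U S N (g1 K o Γ (2 * h) g r) (g2 K o Γ (2 * h) g r)
    (fun x ρ P R F => g1 K o Γ (2 * h) g r x ρ P R F *
        ind (LHin (2 * h) F.length x ρ (vp o (fr K o x) (P ++ F)))) fB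
    (fun m u t hm _ ht x ρ P R F hPl _ _ =>
      E7_point1 o Γ (2 * h) g r x ρ P R F (by rw [hPl]; exact hlen m t hm ht))
  have t2 := E7_tri_le3 (K := K) o Γ m0 M U S N (g2 K o Γ (2 * h) g r) (g1 K o Γ (2 * h) g r)
    (fun x ρ P R F => g2 K o Γ (2 * h) g r x ρ P R F *
        ind (LHin (2 * h) (R.length + F.length) x ρ (vp o (fr K o x) (P ++ (R ++ F))))) fD
    (fun m u t hm _ ht x ρ P R F hPl _ _ =>
      E7_point2 o Γ (2 * h) g r x ρ P R F (by rw [hPl]; exact hlen m t hm ht))
  have q1 : 3 / 2 * CZ θ ^ 2 * ((M : ℝ) * ((m0 : ℝ) + M + 1)) ≤ 3 / 2 * CZ θ ^ 2 * Q :=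
    mul_le_mul_of_nonneg_left ha' (by positivity)
  have q2 : 3 / 2 * CZ θ * ((M : ℝ) * ((m0 : ℝ) + M + U + 1)) ≤ 3 / 2 * CZ θ * Q :=
    mul_le_mul_of_nonneg_left hc' (by positivity)
  have p1 : 0 ≤ 3 / 2 * CZ θ ^ 2 * Q := by positivity
  have p2 : 0 ≤ 3 / 2 * CZ θ * Q := by positivity
  have p3 : 0 ≤ CB * Q := by positivity
  have p4 : 0 ≤ CZ θ * (CD * Q) := by positivity
  rw [abs_le]
  constructor
  · nlinarith
  · nlinarith

end Pool.Agent.helper20.HP
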